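import Mathlib

/-!
The statement on path systems in cyclically k-edge-connected cubic graphs fails for k = 6.
Witness: the Heawood graph, a vertex y with neighbours w, x1, x2, the edge y w, and the two
2-edge paths centred at x1 and at x2 that avoid y.
-/

set_option autoImplicit false

namespace Pool.Agent.Results.MP_c13936_co.Heawood

/-- A circuit: a connected 2-regular subgraph. -/
def IsCircuit {V : Type} {G : SimpleGraph V} (C : G.Subgraph) : Prop :=
  C.Connected ∧ ∀ v ∈ C.verts, (C.neighborSet v).ncard = 2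

/-- The edge cut of a vertex set: the edges of `G` with exactly one end in `X`. -/
def edgeCut {V : Type} (G : SimpleGraph V) (X : Set V) : Set (Sym2 V) :=
  {e | ∃ u v, e = s(u, v) ∧ G.Adj u v ∧ u ∈ X ∧ v ∉ X}

/-- A bond: a minimal nonempty edge cut. -/
def IsBond {V : Type} (G : SimpleGraph V) (B : Set (Sym2 V)) : Prop :=
  Minimal (fun F : Set (Sym2 V) => F.Nonempty ∧ ∃ X : Set V, F = edgeCut G X) B

/-- Cyclic `k`-edge-connectivity: `G` is connected, has two vertex-disjoint circuits, and has no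
bond `B` with fewer than `k` edges such that each component of `G - B` contains a circuit. -/
def CyclicallyEdgeConnected {V : Type} (G : SimpleGraph V) (k : ℕ) : Prop :=
  G.Connected ∧
  (∃ C D : G.Subgraph, IsCircuit C ∧ IsCircuit D ∧ Disjoint C.verts D.verts) ∧
  ¬ ∃ B : Set (Sym2 V), IsBond G B ∧ B.ncard < k ∧
      ∀ K : (G.deleteEdges B).ConnectedComponent,
        ∃ C : (G.deleteEdges B).Subgraph, IsCircuit C ∧ C.verts ⊆ K.supp

/-- `S` induces a path system: no circuit has all its edges in `S`, and no vertex is incident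
with three or more edges of `S`. -/
def InducesPathSystem {V : Type} (G : SimpleGraph V) (S : Set (Sym2 V)) : Prop :=
  (¬ ∃ C : G.Subgraph, IsCircuit C ∧ C.edgeSet ⊆ S) ∧ ∀ v : V, {e ∈ S | v ∈ e}.ncard ≤ 2

/-- adjacency of the Heawood graph -/
def adjB (u v : Fin 14) : Bool :=
  v = u + 1 || u = v + 1 || (u.val % 2 = 0 && v = u + 5) || (v.val % 2 = 0 && u = v + 5)

/-- the Heawood graph -/
def heawood : SimpleGraph (Fin 14) where
  Adj u v := adjB u v = true
  symm := ⟨by decide⟩
  loopless := ⟨by decide⟩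

instance : DecidableRel heawood.Adj := fun u v => inferInstanceAs (Decidable (adjB u v = true))

/-- the five prescribed edges -/
def presc : Finset (Sym2 (Fin 14)) := {s(0, 5), s(1, 2), s(1, 10), s(13, 12), s(13, 8)}

/-- first ends of the 21 edges -/
def ea : Fin 21 → Fin 14 := ![0, 1, 2, 3, 4, 5, 6, 7, 8, 9, 10, 11, 12, 13, 0, 2, 4, 6, 8, 10, 12]
/-- second ends of the 21 edges -/
def eb : Fin 21 → Fin 14 := ![1, 2, 3, 4, 5, 6, 7, 8, 9, 10, 11, 12, 13, 0, 5, 7, 9, 11, 13, 1, 3]

theorem ea_adj : ∀ i, heawood.Adj (ea i) (eb i) := by decide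

theorem e_inj : Function.Injective (fun i => s(ea i, eb i)) := by decide

theorem cut_bool : ∀ b0 b1 b2 b3 b4 b5 b6 b7 b8 b9 b10 b11 b12 b13 : Bool,
    4 ≤ b0.toNat + b1.toNat + b2.toNat + b3.toNat + b4.toNat + b5.toNat + b6.toNat + b7.toNat
      + b8.toNat + b9.toNat + b10.toNat + b11.toNat + b12.toNat + b13.toNat →
    4 ≤ (!b0).toNat + (!b1).toNat + (!b2).toNat + (!b3).toNat + (!b4).toNat + (!b5).toNat
      + (!b6).toNat + (!b7).toNat + (!b8).toNat + (!b9).toNat + (!b10).toNat + (!b11).toNat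
      + (!b12).toNat + (!b13).toNat →
    6 ≤ (b0 != b1).toNat + (b1 != b2).toNat + (b2 != b3).toNat + (b3 != b4).toNat
      + (b4 != b5).toNat + (b5 != b6).toNat + (b6 != b7).toNat + (b7 != b8).toNat
      + (b8 != b9).toNat + (b9 != b10).toNat + (b10 != b11).toNat + (b11 != b12).toNat
      + (b12 != b13).toNat + (b13 != b0).toNat + (b0 != b5).toNat + (b2 != b7).toNat
      + (b4 != b9).toNat + (b6 != b11).toNat + (b8 != b13).toNat + (b10 != b1).toNat
      + (b12 != b3).toNat := by
  decide +kernel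

theorem card_filter_bool {n : ℕ} (f : Fin n → Bool) :
    (Finset.univ.filter (fun i => f i = true)).card = ∑ i, (f i).toNat := by
  rw [Finset.card_filter]
  refine Finset.sum_congr rfl fun i _ => ?_
  cases f i <;> simp

theorem cut_fun (f : Fin 14 → Bool)
    (h1 : 4 ≤ (Finset.univ.filter (fun i => f i = true)).card)
    (h2 : 4 ≤ (Finset.univ.filter (fun i => (!f i) = true)).card) :
    6 ≤ (Finset.univ.filter (fun i : Fin 21 => (f (ea i) != f (eb i)) = true)).card := by
  rw [card_filter_bool] at h1 h2 ⊢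
  have := cut_bool (f 0) (f 1) (f 2) (f 3) (f 4) (f 5) (f 6) (f 7) (f 8) (f 9) (f 10) (f 11)
    (f 12) (f 13)
  simp only [Fin.sum_univ_succ, Fin.sum_univ_zero] at h1 h2 ⊢
  simp only [ea, eb] at ⊢
  simp only [← add_assoc, add_zero] at h1 h2 ⊢
  exact this h1 h2

theorem cut_ge (X : Set (Fin 14)) (h1 : 4 ≤ X.ncard) (h2 : 4 ≤ Xᶜ.ncard) :
    6 ≤ (edgeCut heawood X).ncard := by
  classical
  let f : Fin 14 → Bool := fun i => decide (i ∈ X)
  have e1 : X = ↑(Finset.univ.filter (fun i => f i = true)) := by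
    ext i; simp [f]
  have e2 : Xᶜ = ↑(Finset.univ.filter (fun i => (!f i) = true)) := by
    ext i; simp [f]
  have h := cut_fun f (by rw [e1, Set.ncard_coe_finset] at h1; exact h1)
    (by rw [e2, Set.ncard_coe_finset] at h2; exact h2)
  refine h.trans ?_
  rw [← Finset.card_image_of_injective _ e_inj, ← Set.ncard_coe_finset]
  refine Set.ncard_le_ncard ?_ (Set.toFinite _)
  intro e he
  simp only [Finset.coe_image, Finset.coe_filter, Finset.mem_univ, true_and, Set.mem_image,
    Set.mem_ofPred_eq] at he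
  obtain ⟨i, hi, rfl⟩ := he
  by_cases ha : ea i ∈ X
  · have hb : eb i ∉ X := by
      intro hb; simp [f, ha, hb] at hi
    exact ⟨ea i, eb i, rfl, ea_adj i, ha, hb⟩
  · have hb : eb i ∈ X := by
      by_contra hb; simp [f, ha, hb] at hi
    exact ⟨eb i, ea i, Sym2.eq_swap, (ea_adj i).symm, hb, ha⟩

theorem tri_free : ∀ a b c : Fin 14, heawood.Adj a b → heawood.Adj b c → ¬ heawood.Adj a c := by
  decide

/-- a circuit of a subgraph of the Heawood graph has at least four vertices -/
theorem four_le {H : SimpleGraph (Fin 14)} (hH : H ≤ heawood) (C : H.Subgraph)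
    (hC : IsCircuit C) : 4 ≤ C.verts.ncard := by
  obtain ⟨hconn, hdeg⟩ := hC
  obtain ⟨v, hv⟩ := hconn.nonempty
  obtain ⟨a, b, hab, hN⟩ := Set.ncard_eq_two.1 (hdeg v hv)
  have hva : C.Adj v a := by
    have : a ∈ C.neighborSet v := by rw [hN]; simp
    exact this
  have hvb : C.Adj v b := by
    have : b ∈ C.neighborSet v := by rw [hN]; simp
    exact this
  have ha : a ∈ C.verts := C.edge_vert hva.symm
  have hb : b ∈ C.verts := C.edge_vert hvb.symm
  obtain ⟨c, d, hcd, hM⟩ := Set.ncard_eq_two.1 (hdeg a ha)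
  have hac : C.Adj a c := by
    have : c ∈ C.neighborSet a := by rw [hM]; simp
    exact this
  have had : C.Adj a d := by
    have : d ∈ C.neighborSet a := by rw [hM]; simp
    exact this
  obtain ⟨w, haw, hwv⟩ : ∃ w, C.Adj a w ∧ w ≠ v := by
    by_cases h : c = v
    · exact ⟨d, had, fun h' => hcd (h.trans h'.symm)⟩
    · exact ⟨c, hac, h⟩
  have hw : w ∈ C.verts := C.edge_vert haw.symm
  have hwb : w ≠ b := by
    rintro rfl
    exact tri_free v a w (hH (C.adj_sub hva)) (hH (C.adj_sub haw)) (hH (C.adj_sub hvb))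
  have hva' : v ≠ a := (C.adj_sub hva).ne
  have hvb' : v ≠ b := (C.adj_sub hvb).ne
  have haw' : a ≠ w := (C.adj_sub haw).ne
  have h4 : ({v, a, b, w} : Set (Fin 14)).ncard = 4 := by
    rw [Set.ncard_insert_of_notMem (by simp [hva', hvb', hwv.symm]),
      Set.ncard_insert_of_notMem (by simp [hab, haw']),
      Set.ncard_pair hwb.symm]
  rw [← h4]
  refine Set.ncard_le_ncard ?_ (Set.toFinite _)
  intro x hx
  simp only [Set.mem_insert_iff, Set.mem_singleton_iff] at hx
  rcases hx with rfl | rfl | rfl | rfl <;> assumption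

theorem side (X : Set (Fin 14)) {u w : Fin 14}
    (h : (heawood.deleteEdges (edgeCut heawood X)).Reachable u w) : u ∈ X ↔ w ∈ X := by
  obtain ⟨p⟩ := h
  induction p with
  | nil => rfl
  | @cons a b c hab _ ih =>
    rw [← ih]
    rw [SimpleGraph.deleteEdges_adj] at hab
    constructor
    · intro ha
      by_contra hb
      exact hab.2 ⟨a, b, rfl, hab.1, ha, hb⟩
    · intro hb
      by_contra ha
      exact hab.2 ⟨b, a, Sym2.eq_swap, hab.1.symm, hb, ha⟩

theorem circuit_of_cycle {v : Fin 14} (p : heawood.Walk v v) (hp : p.IsCycle) :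
    IsCircuit p.toSubgraph :=
  ⟨p.toSubgraph_connected, fun _ hw =>
    hp.ncard_neighborSet_toSubgraph_eq_two (p.mem_verts_toSubgraph.1 hw)⟩

/-- first hexagon -/
def hex1 : heawood.Walk 0 0 :=
  .cons (show heawood.Adj 0 1 by decide) (.cons (show heawood.Adj 1 2 by decide)
    (.cons (show heawood.Adj 2 3 by decide) (.cons (show heawood.Adj 3 4 by decide)
      (.cons (show heawood.Adj 4 5 by decide) (.cons (show heawood.Adj 5 0 by decide) .nil)))))

/-- second hexagon -/
def hex2 : heawood.Walk 6 6 :=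
  .cons (show heawood.Adj 6 7 by decide) (.cons (show heawood.Adj 7 8 by decide)
    (.cons (show heawood.Adj 8 9 by decide) (.cons (show heawood.Adj 9 10 by decide)
      (.cons (show heawood.Adj 10 11 by decide) (.cons (show heawood.Adj 11 6 by decide) .nil)))))

theorem hex1_cycle : hex1.IsCycle := by
  rw [SimpleGraph.Walk.isCycle_def]
  refine ⟨⟨by decide⟩, by simp [hex1], by decide⟩

theorem hex2_cycle : hex2.IsCycle := by
  rw [SimpleGraph.Walk.isCycle_def]
  refine ⟨⟨by decide⟩, by simp [hex2], by decide⟩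

theorem heawood_conn : heawood.Connected := by
  have step : ∀ n : ℕ, ∀ h : n < 14, heawood.Reachable 0 ⟨n, h⟩ := by
    intro n
    induction n with
    | zero => intro h; rfl
    | succ m ih =>
      intro h
      refine (ih (by omega)).trans (SimpleGraph.Adj.reachable ?_)
      have : ∀ a b : Fin 14, b.val = a.val + 1 → heawood.Adj a b := by decide
      exact this _ _ rfl
  exact ⟨fun a b => (step a.val a.2).symm.trans (step b.val b.2)⟩

theorem heawood_cyc : CyclicallyEdgeConnected heawood 6 := by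
  refine ⟨heawood_conn, ⟨hex1.toSubgraph, hex2.toSubgraph, circuit_of_cycle _ hex1_cycle,
    circuit_of_cycle _ hex2_cycle, ?_⟩, ?_⟩
  · rw [Set.disjoint_left]
    intro a h1 h2
    rw [SimpleGraph.Walk.mem_verts_toSubgraph] at h1 h2
    revert a
    decide
  · rintro ⟨B, ⟨⟨⟨e, he⟩, X, rfl⟩, -⟩, hlt, hK⟩
    obtain ⟨u, v, -, -, hu, hv⟩ := he
    obtain ⟨C, hC, hCu⟩ := hK ((heawood.deleteEdges (edgeCut heawood X)).connectedComponentMk u)
    obtain ⟨D, hD, hDv⟩ := hK ((heawood.deleteEdges (edgeCut heawood X)).connectedComponentMk v)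
    have h1 : 4 ≤ X.ncard := by
      refine (four_le (heawood.deleteEdges_le _) C hC).trans
        (Set.ncard_le_ncard ?_ (Set.toFinite _))
      intro w hw
      have := hCu hw
      rw [SimpleGraph.ConnectedComponent.mem_supp_iff, SimpleGraph.ConnectedComponent.eq] at this
      exact (side X this).2 hu
    have h2 : 4 ≤ Xᶜ.ncard := by
      refine (four_le (heawood.deleteEdges_le _) D hD).trans
        (Set.ncard_le_ncard ?_ (Set.toFinite _))
      intro w hw
      have := hDv hw
      rw [SimpleGraph.ConnectedComponent.mem_supp_iff, SimpleGraph.ConnectedComponent.eq] at this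
      exact fun hw' => hv ((side X this).1 hw')
    have := cut_ge X h1 h2
    omega

theorem three_le {C : heawood.Subgraph} {v a b c : Fin 14} (ha : C.Adj v a) (hb : C.Adj v b)
    (hc : C.Adj v c) (hab : a ≠ b) (hac : a ≠ c) (hbc : b ≠ c) :
    3 ≤ (C.neighborSet v).ncard := by
  have h3 : ({a, b, c} : Set (Fin 14)).ncard = 3 := Set.ncard_eq_three.2 ⟨a, b, c, hab, hac, hbc, rfl⟩
  rw [← h3]
  refine Set.ncard_le_ncard ?_ (Set.toFinite _)
  intro x hx
  simp only [Set.mem_insert_iff, Set.mem_singleton_iff] at hx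
  rcases hx with rfl | rfl | rfl <;> assumption

theorem other_nbr {C : heawood.Subgraph} (hC : IsCircuit C) {v : Fin 14} (hv : v ∈ C.verts)
    (a : Fin 14) : ∃ w, C.Adj v w ∧ w ≠ a := by
  obtain ⟨c, d, hcd, hM⟩ := Set.ncard_eq_two.1 (hC.2 v hv)
  have hc : C.Adj v c := by
    have : c ∈ C.neighborSet v := by rw [hM]; simp
    exact this
  have hd : C.Adj v d := by
    have : d ∈ C.neighborSet v := by rw [hM]; simp
    exact this
  by_cases h : c = a
  · exact ⟨d, hd, fun h' => hcd (h.trans h'.symm)⟩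
  · exact ⟨c, hc, h⟩

theorem no_circuit : ¬ ∃ C : heawood.Subgraph, IsCircuit C ∧ (presc : Set (Sym2 (Fin 14))) ⊆ C.edgeSet := by
  rintro ⟨C, hC, hS⟩
  have m : ∀ a b : Fin 14, s(a, b) ∈ presc → C.Adj a b := fun a b h =>
    SimpleGraph.Subgraph.mem_edgeSet.1 (hS h)
  have h05 : C.Adj 0 5 := m _ _ (by decide)
  have h12 : C.Adj 1 2 := m _ _ (by decide)
  have h110 : C.Adj 1 10 := m _ _ (by decide)
  have h1312 : C.Adj 13 12 := m _ _ (by decide)
  have h138 : C.Adj 13 8 := m _ _ (by decide)
  obtain ⟨w, hw, hw5⟩ := other_nbr hC (C.edge_vert h05) 5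
  have hcases : ∀ w : Fin 14, heawood.Adj 0 w → w ≠ 5 → w = 1 ∨ w = 13 := by decide
  rcases hcases w (C.adj_sub hw) hw5 with rfl | rfl
  · have := three_le h12 h110 hw.symm (by decide) (by decide) (by decide)
    have h2 := hC.2 1 (C.edge_vert h12)
    omega
  · have := three_le h1312 h138 hw.symm (by decide) (by decide) (by decide)
    have h2 := hC.2 13 (C.edge_vert h138)
    omega

theorem path_system : InducesPathSystem heawood (presc : Set (Sym2 (Fin 14))) := by
  constructor
  · rintro ⟨C, hC, hS⟩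
    have m : ∀ a b : Fin 14, C.Adj a b → s(a, b) ∈ presc := fun a b h =>
      hS (SimpleGraph.Subgraph.mem_edgeSet.2 h)
    obtain ⟨v, hv⟩ := hC.1.nonempty
    obtain ⟨a, hva, -⟩ := other_nbr hC hv v
    obtain ⟨b, hab, hbv⟩ := other_nbr hC (C.edge_vert hva.symm) v
    obtain ⟨c, hbc, hca⟩ := other_nbr hC (C.edge_vert hab.symm) a
    have key : ∀ v a b c : Fin 14, s(v, a) ∈ presc → s(a, b) ∈ presc → b ≠ v →
        s(b, c) ∈ presc → c = a := by decide +kernel
    exact hca (key v a b c (m _ _ hva) (m _ _ hab) hbv (m _ _ hbc))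
  · intro v
    have : {e ∈ (presc : Set (Sym2 (Fin 14))) | v ∈ e} = ↑(presc.filter (fun e => v ∈ e)) := by
      ext e; simp
    rw [this, Set.ncard_coe_finset]
    clear this
    revert v
    decide

theorem result :
    ∃ (G : SimpleGraph (Fin 14)) (S : Set (Sym2 (Fin 14))),
      (∀ v, (G.neighborSet v).ncard = 3) ∧ CyclicallyEdgeConnected G 6 ∧
      S ⊆ G.edgeSet ∧ S.ncard = 6 - 1 ∧ InducesPathSystem G S ∧
      ¬ ∃ C : G.Subgraph, IsCircuit C ∧ S ⊆ C.edgeSet := by
  refine ⟨heawood, presc, ?_, heawood_cyc, ?_, ?_, path_system, no_circuit⟩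
  · intro v
    have : heawood.neighborSet v = ↑(Finset.univ.filter (fun w => heawood.Adj v w)) := by
      ext w; simp
    rw [this, Set.ncard_coe_finset]
    clear this
    revert v
    decide
  · intro e he
    simp only [presc, Finset.coe_insert, Finset.coe_singleton, Set.mem_insert_iff,
      Set.mem_singleton_iff] at he
    rcases he with rfl | rfl | rfl | rfl | rfl <;>
      exact (SimpleGraph.mem_edgeSet _).2 (by decide)
  · rw [Set.ncard_coe_finset]
    decide

end Pool.Agent.Results.MP_c13936_co.Heawood
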