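import Pool.Agent.Lib.MP_c13936_co.Main

open Pool.Agent.Lib.MP_c13936_co

/-- For `k ≥ 200`, a set `S` of at most `k - 1` edges of a 3-regular cyclically
`k`-edge-connected multigraph lies on a circuit if and only if it is independent or contains no
odd edge cut. -/
theorem Pool.Agent.Results.MP_c13936_co.LargeK.result
    (V E : Type*) [Fintype V] [DecidableEq V] [Fintype E] [DecidableEq E] (s t : E → V)
    (k : ℕ) (hk : 200 ≤ k) (h3 : ∀ v, deg s t Finset.univ v = 3)
    (hG : CyclicallyEdgeConnected s t k) (S : Finset E) (hS : S.card ≤ k - 1) :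
    (∃ C : Finset E, IsCircuit s t C ∧ S ⊆ C) ↔
      ((∀ v, deg s t S v ≤ 1) ∨ ∀ X : Finset V, cut s t X ⊆ S → Even (cut s t X).card) := by
  have hS' : S.card < k := by omega
  refine ⟨fun ⟨C, h1, h2⟩ => Or.inr fun X hX => even_cut h1 (hX.trans h2),
    fun h => main h3 hG hk hS' (h.elim (fun h X hX => ?_) id)⟩
  rw [cut_empty h3 hG hS' h hX]
  exact Even.zero
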